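import Pool.Agent.H80.SH.Targets

/-!
# SH project: CHO (binomial coefficients)
-/

set_option autoImplicit false

namespace Pool.Agent.H74.SH

open Finset Pool.Agent.H80.SH

theorem cho : T_CHO := by
  intro n d w hd
  induction w with
  | zero => simp
  | succ w ih =>
    have h1 := Nat.choose_succ_right_eq (n - d) w
    have h2 := Nat.choose_succ_right_eq n w
    refine Nat.le_of_mul_le_mul_right ?_ (Nat.succ_pos w)
    have h3 : n * (n - d - w) ≤ (n - d) * (n - w) := by
      rcases Nat.lt_or_ge (n - d) w with h | h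
      · rw [Nat.sub_eq_zero_of_le h.le, mul_zero]
        exact Nat.zero_le _
      · obtain ⟨a, ha⟩ : ∃ a, a = n - d := ⟨_, rfl⟩
        rw [← ha] at h ⊢
        obtain ⟨b, rfl⟩ := Nat.exists_eq_add_of_le h
        obtain ⟨c, rfl⟩ : ∃ c, n = w + b + c := ⟨n - (w + b), by omega⟩
        have e1 : w + b - w = b := by omega
        have e2 : w + b + c - w = b + c := by omega
        rw [e1, e2]
        nlinarith [Nat.zero_le (w * c)]
    calc n ^ (w + 1) * (n - d).choose (w + 1) * (w + 1)
        = n ^ w * n * ((n - d).choose (w + 1) * (w + 1)) := by ring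
      _ = (n ^ w * (n - d).choose w) * (n * (n - d - w)) := by rw [h1]; ring
      _ ≤ ((n - d) ^ w * n.choose w) * ((n - d) * (n - w)) := Nat.mul_le_mul ih h3
      _ = (n - d) ^ w * (n - d) * (n.choose w * (n - w)) := by ring
      _ = (n - d) ^ w * (n - d) * (n.choose (w + 1) * (w + 1)) := by rw [h2]
      _ = (n - d) ^ (w + 1) * n.choose (w + 1) * (w + 1) := by ring

end Pool.Agent.H74.SH
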