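import Pool.Agent.H80.SH.Targets

/-!
# SH project: CLO (maximal chains)
-/

set_option autoImplicit false

namespace Pool.Agent.H74.SH

open Finset Pool.Agent.H80.SH

theorem clo : T_CLO := by
  intro X ι _ _ _ V L g H T M hgood A hA
  by_contra hcon
  push Not at hcon
  have hlen : ∀ N : ℕ, ∃ l : List ι, Chain V g H A l ∧ l.length = N := by
    intro N
    induction N with
    | zero => exact ⟨[], trivial, rfl⟩
    | succ N ih =>
      obtain ⟨l, hl, hlN⟩ := ih
      obtain ⟨h1, c, hc⟩ := hcon l hl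
      exact ⟨c :: l, ⟨hl, h1, hc⟩, by rw [List.length_cons, hlN]⟩
  obtain ⟨l, hl, hlT⟩ := hlen T
  have h1 := (hgood A hA l hl).1
  omega

end Pool.Agent.H74.SH
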