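import Pool.Agent.H80.SH.Targets

/-!
# SH project: MOM (few clauses are dense in a large set)
-/

set_option autoImplicit false

namespace Pool.Agent.H74.SH

open Finset Pool.Agent.H80.SH

theorem mom_bern (r m : ℕ) : r ^ (m + 1) + (m + 1) * r ^ m ≤ (r + 1) ^ (m + 1) := by
  induction m with
  | zero => simp
  | succ m ih =>
    calc r ^ (m + 1 + 1) + (m + 1 + 1) * r ^ (m + 1)
        ≤ (r ^ (m + 1) + (m + 1) * r ^ m) * (r + 1) := by
          have h0 : 0 ≤ (m + 1) * r ^ m := Nat.zero_le _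
          have e1 : (r ^ (m + 1) + (m + 1) * r ^ m) * (r + 1) =
              r ^ (m + 1 + 1) + (m + 1 + 1) * r ^ (m + 1) + (m + 1) * r ^ m := by ring
          rw [e1]
          exact Nat.le_add_right _ _
      _ ≤ (r + 1) ^ (m + 1) * (r + 1) := Nat.mul_le_mul_right _ ih
      _ = (r + 1) ^ (m + 1 + 1) := by ring

theorem mom_two (R : ℕ) (hR : 2 ≤ R) : 2 * (R - 1) ^ R ≤ R ^ R := by
  obtain ⟨r, rfl⟩ : ∃ r, R = r + 1 := ⟨R - 1, by omega⟩
  rw [Nat.add_sub_cancel]
  refine le_trans ?_ (mom_bern r r)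
  have h1 : r * r ^ r ≤ (r + 1) * r ^ r := Nat.mul_le_mul_right _ (Nat.le_succ r)
  calc 2 * r ^ (r + 1) = r ^ (r + 1) + r * r ^ r := by ring
    _ ≤ r ^ (r + 1) + (r + 1) * r ^ r := Nat.add_le_add_left h1 _

/-- far pairs -/
theorem mom_far (hCHO : T_CHO) (n w R el d : ℕ) (hn : 1 ≤ n) (hR : 2 ≤ R) (hw : w = R * el)
    (hd : d ≤ n) (hfar : n ≤ R * d) : (n - d).choose w * 2 ^ el ≤ n.choose w := by
  have h1 := hCHO n d w hd
  have h2 : R * (n - d) ≤ (R - 1) * n := by
    obtain ⟨r, rfl⟩ : ∃ r, R = r + 1 := ⟨R - 1, by omega⟩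
    obtain ⟨a, rfl⟩ : ∃ a, n = d + a := ⟨n - d, by omega⟩
    have e1 : d + a - d = a := by omega
    rw [e1, Nat.add_sub_cancel]
    nlinarith
  have h3 : (R * (n - d)) ^ w ≤ ((R - 1) * n) ^ w := Nat.pow_le_pow_left h2 w
  have h4 : 2 ^ el * (R - 1) ^ w ≤ R ^ w := by
    rw [hw, pow_mul, pow_mul, ← mul_pow]
    exact Nat.pow_le_pow_left (mom_two R hR) el
  have hpos : 0 < R ^ w * n ^ w := Nat.mul_pos (pow_pos (by omega) _) (pow_pos (by omega) _)
  refine Nat.le_of_mul_le_mul_left ?_ hpos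
  calc R ^ w * n ^ w * ((n - d).choose w * 2 ^ el)
      = R ^ w * 2 ^ el * (n ^ w * (n - d).choose w) := by ring
    _ ≤ R ^ w * 2 ^ el * ((n - d) ^ w * n.choose w) := Nat.mul_le_mul_left _ h1
    _ = (R * (n - d)) ^ w * (2 ^ el * n.choose w) := by rw [mul_pow]; ring
    _ ≤ ((R - 1) * n) ^ w * (2 ^ el * n.choose w) := Nat.mul_le_mul_right _ h3
    _ = (2 ^ el * (R - 1) ^ w) * (n ^ w * n.choose w) := by rw [mul_pow]; ring
    _ ≤ R ^ w * (n ^ w * n.choose w) := Nat.mul_le_mul_right _ h4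
    _ = R ^ w * n ^ w * n.choose w := by ring

theorem mom_near {n : ℕ} (R : ℕ) (A : Finset (Fin n → Bool)) (x : Fin n → Bool) :
    (A.filter fun y => R * dist x y < n).card ≤ ball n R := by
  unfold ball
  refine Finset.card_le_card_of_injOn (fun y i => xor (x i) (y i)) ?_ ?_
  · intro y hy
    have hy' := (Finset.mem_filter.1 (Finset.mem_coe.1 hy)).2
    refine Finset.mem_coe.2 (Finset.mem_filter.2 ⟨Finset.mem_univ _, ?_⟩)
    have h1 : (univ.filter fun i => (xor (x i) (y i)) = true).card = dist x y := by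
      unfold H80.SH.dist
      congr 1
      refine Finset.filter_congr fun i _ => ?_
      cases x i <;> cases y i <;> simp
    rw [h1]
    exact hy'
  · intro y _ z _ h
    funext i
    have h1 := congrFun h i
    simp only at h1
    cases hx : x i <;> rw [hx] at h1 <;> simpa using h1

theorem mom_sq {α X : Type} [Fintype α] [DecidableEq X] (V : α → Finset X) (A : Finset X) :
    ∑ c, (A ∩ V c).card ^ 2 =
      ∑ x ∈ A, ∑ y ∈ A, (univ.filter fun c => x ∈ V c ∧ y ∈ V c).card := by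
  have h1 : ∀ c, (A ∩ V c).card ^ 2 =
      ∑ x ∈ A, ∑ y ∈ A, if x ∈ V c ∧ y ∈ V c then 1 else 0 := by
    intro c
    have h2 : (A ∩ V c).card = ∑ x ∈ A, if x ∈ V c then 1 else 0 := by
      rw [← Finset.card_filter, Finset.filter_mem_eq_inter]
    rw [pow_two, h2, Finset.sum_mul_sum]
    refine Finset.sum_congr rfl fun x _ => Finset.sum_congr rfl fun y _ => ?_
    by_cases hx : x ∈ V c <;> by_cases hy : y ∈ V c <;> simp [hx, hy]
  rw [Finset.sum_congr rfl fun c _ => h1 c, Finset.sum_comm]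
  refine Finset.sum_congr rfl fun x _ => ?_
  rw [Finset.sum_comm]
  refine Finset.sum_congr rfl fun y _ => ?_
  rw [Finset.card_filter]

theorem mom (hCHO : T_CHO) (hPRS : T_PRS) : T_MOM := by
  intro n w R el g H hn hR hw hwn hball A hA
  obtain ⟨hcard, hpair, -, -⟩ := hPRS n w hwn
  have hA0 : 0 < A.card := lt_of_lt_of_le (pow_pos (by norm_num) g) hA
  have hdist : ∀ x y : Fin n → Bool, dist x y ≤ n := by
    intro x y
    unfold H80.SH.dist
    exact (Finset.card_le_univ _).trans_eq (Fintype.card_fin n)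
  -- the sum over the pairs
  have hx : ∀ x ∈ A, ∑ y ∈ A, (n - dist x y).choose w * 2 ^ el ≤ 2 * (A.card * n.choose w) := by
    intro x _
    rw [← Finset.sum_filter_add_sum_filter_not A (fun y => R * dist x y < n)]
    have h1 : ∑ y ∈ A.filter (fun y => R * dist x y < n), (n - dist x y).choose w * 2 ^ el ≤
        A.card * n.choose w := by
      calc ∑ y ∈ A.filter (fun y => R * dist x y < n), (n - dist x y).choose w * 2 ^ el
          ≤ ∑ y ∈ A.filter (fun y => R * dist x y < n), n.choose w * 2 ^ el :=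
            Finset.sum_le_sum fun y _ => Nat.mul_le_mul_right _
              (Nat.choose_le_choose _ (Nat.sub_le _ _))
        _ = (A.filter (fun y => R * dist x y < n)).card * (n.choose w * 2 ^ el) := by
            rw [Finset.sum_const, smul_eq_mul]
        _ ≤ ball n R * (n.choose w * 2 ^ el) := Nat.mul_le_mul_right _ (mom_near R A x)
        _ = ball n R * 2 ^ el * n.choose w := by ring
        _ ≤ 2 ^ g * n.choose w := Nat.mul_le_mul_right _ hball
        _ ≤ A.card * n.choose w := Nat.mul_le_mul_right _ hA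
    have h2 : ∑ y ∈ A.filter (fun y => ¬ R * dist x y < n), (n - dist x y).choose w * 2 ^ el ≤
        A.card * n.choose w := by
      calc ∑ y ∈ A.filter (fun y => ¬ R * dist x y < n), (n - dist x y).choose w * 2 ^ el
          ≤ ∑ y ∈ A.filter (fun y => ¬ R * dist x y < n), n.choose w :=
            Finset.sum_le_sum fun y hy => mom_far hCHO n w R el _ hn hR hw (hdist x y)
              (not_lt.1 (Finset.mem_filter.1 hy).2)
        _ = (A.filter (fun y => ¬ R * dist x y < n)).card * n.choose w := by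
            rw [Finset.sum_const, smul_eq_mul]
        _ ≤ A.card * n.choose w := Nat.mul_le_mul_right _ (Finset.card_filter_le _ _)
    calc _ ≤ A.card * n.choose w + A.card * n.choose w := Nat.add_le_add h1 h2
      _ = 2 * (A.card * n.choose w) := by ring
  have hsum : (∑ c : Cl n w, (A ∩ VC c).card ^ 2) * (2 ^ w * 2 ^ el) ≤
      2 * A.card ^ 2 * Fintype.card (Cl n w) := by
    rw [mom_sq]
    calc (∑ x ∈ A, ∑ y ∈ A, (univ.filter fun c : Cl n w => x ∈ VC c ∧ y ∈ VC c).card) *
          (2 ^ w * 2 ^ el)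
        = ∑ x ∈ A, (∑ y ∈ A, (n - dist x y).choose w * 2 ^ el) * 2 ^ n := by
          rw [Finset.sum_mul]
          refine Finset.sum_congr rfl fun x _ => ?_
          rw [Finset.sum_mul, Finset.sum_mul]
          refine Finset.sum_congr rfl fun y _ => ?_
          rw [← mul_assoc, hpair x y]
          ring
      _ ≤ ∑ x ∈ A, 2 * (A.card * n.choose w) * 2 ^ n :=
          Finset.sum_le_sum fun x hxA => Nat.mul_le_mul_right _ (hx x hxA)
      _ = 2 * A.card ^ 2 * Fintype.card (Cl n w) := by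
          rw [Finset.sum_const, smul_eq_mul, hcard]
          ring
  have hD : (dense (VC : Cl n w → _) H A).card * A.card ^ 2 ≤
      H ^ 2 * ∑ c : Cl n w, (A ∩ VC c).card ^ 2 := by
    calc (dense (VC : Cl n w → _) H A).card * A.card ^ 2
        = ∑ c ∈ dense (VC : Cl n w → _) H A, A.card ^ 2 := by
          rw [Finset.sum_const, smul_eq_mul]
      _ ≤ ∑ c ∈ dense (VC : Cl n w → _) H A, H ^ 2 * (A ∩ VC c).card ^ 2 := by
          refine Finset.sum_le_sum fun c hc => ?_
          rw [← mul_pow]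
          exact Nat.pow_le_pow_left (Finset.mem_filter.1 hc).2 2
      _ ≤ ∑ c : Cl n w, H ^ 2 * (A ∩ VC c).card ^ 2 :=
          Finset.sum_le_sum_of_subset (Finset.filter_subset _ _)
      _ = H ^ 2 * ∑ c : Cl n w, (A ∩ VC c).card ^ 2 := by rw [Finset.mul_sum]
  refine Nat.le_of_mul_le_mul_right ?_ (pow_pos hA0 2)
  calc (dense (VC : Cl n w → _) H A).card * (2 ^ w * 2 ^ el) * A.card ^ 2
      = (dense (VC : Cl n w → _) H A).card * A.card ^ 2 * (2 ^ w * 2 ^ el) := by ring
    _ ≤ (H ^ 2 * ∑ c : Cl n w, (A ∩ VC c).card ^ 2) * (2 ^ w * 2 ^ el) :=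
        Nat.mul_le_mul_right _ hD
    _ = H ^ 2 * ((∑ c : Cl n w, (A ∩ VC c).card ^ 2) * (2 ^ w * 2 ^ el)) := by ring
    _ ≤ H ^ 2 * (2 * A.card ^ 2 * Fintype.card (Cl n w)) := Nat.mul_le_mul_left _ hsum
    _ = 2 * H ^ 2 * Fintype.card (Cl n w) * A.card ^ 2 := by ring

end Pool.Agent.H74.SH
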